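import Pool.Agent.Lib.MP_f30fea_an.Main

/-!
# The maximal dimension of `k`-quasicircles is `1 + Σ² k² + O(k⁴)`
-/

open Filter Topology Pool.Agent.QCD

theorem Pool.Agent.Results.MP_f30fea_an.FourthOrder.result :
    sigma2 < ⊤ ∧
    (∃ C k₀ : ℝ, 0 < C ∧ 0 < k₀ ∧ ∀ k : ℝ, 0 < k → k ≤ k₀ → dsup k < ⊤ ∧
      |(dsup k).toReal - (1 + sigma2.toReal * k ^ 2)| ≤ C * k ^ 4) ∧
    Tendsto (fun k : ℝ => ((dsup k).toReal - 1 - sigma2.toReal * k ^ 2) / k ^ 3)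
      (𝓝[>] 0) (𝓝 0) :=
  ⟨sigma2_lt_top, main_fourth, main_third⟩
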